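import Pool.Agent.H59.UDA.CPcore
import Pool.Agent.H20.LIM.All

/-!
# Board uda_modules, row CP: Cauchy-Pompeiu by potentials
-/

set_option autoImplicit false

namespace Pool.Agent.H59.UDA

open Pool.Agent.H83.UE

/-- every compactly supported `C²` function is `∂/∂z` of a potential -/
theorem pf_CP : T_CP := cp_core Pool.Agent.H20.LIM.All.li Pool.Agent.H20.LIM.All.fun_

end Pool.Agent.H59.UDA
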