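import Pool.Agent.H83.UE.Targets

/-!
# Board uda_modules, row MU: the Green measure
-/

set_option autoImplicit false

namespace Pool.Agent.H59.UDA.MU

open Set Topology Filter MeasureTheory Polynomial
open Pool.Agent.H83.UE
open scoped ContDiff Laplacian ENNReal CompactlySupported

/-! ### the number of roots -/

theorem hsub_deg {d m : ℕ} {A U V : ℂ[X]} (hU : U.natDegree ≤ m) (hV : V.natDegree ≤ m) :
    (hsub d A U V).natDegree ≤ d * m := by
  unfold hsub
  refine Polynomial.natDegree_sum_le_of_forall_le _ _ fun i hi => ?_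
  rw [Finset.mem_range] at hi
  refine (Polynomial.natDegree_mul_le).trans ?_
  have h1 : (C (A.coeff i) * U ^ i).natDegree ≤ i * m := by
    refine (Polynomial.natDegree_C_mul_le _ _).trans ?_
    exact (Polynomial.natDegree_pow_le).trans (Nat.mul_le_mul_left _ hU)
  have h2 : (V ^ (d - i)).natDegree ≤ (d - i) * m :=
    (Polynomial.natDegree_pow_le).trans (Nat.mul_le_mul_left _ hV)
  refine (Nat.add_le_add h1 h2).trans (le_of_eq ?_)
  rw [← Nat.add_mul]
  congr 1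
  omega

theorem it_deg {d : ℕ} (g : RatMap d) (n : ℕ) :
    (g.it n).1.natDegree ≤ d ^ n ∧ (g.it n).2.natDegree ≤ d ^ n := by
  induction n with
  | zero =>
    constructor
    · simp [RatMap.it]
    · simp [RatMap.it]
  | succ n ih =>
    rw [pow_succ, mul_comm]
    exact ⟨hsub_deg ih.1 ih.2, hsub_deg ih.1 ih.2⟩

theorem roots_card {d : ℕ} (g : RatMap d) (n : ℕ) :
    Multiset.card (g.fib n 0).roots ≤ d ^ n := by
  refine (Polynomial.card_roots' _).trans ?_
  have : g.fib n 0 = (g.it n).1 := by simp [RatMap.fib]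
  rw [this]
  exact (it_deg g n).1

/-- the normalised sum over the fibre -/
noncomputable def av {d : ℕ} (g : RatMap d) (n : ℕ) (u : ℂ → ℝ) : ℝ :=
  ((d : ℝ) ^ n)⁻¹ * ((g.fib n 0).roots.map u).sum

theorem av_bd {d : ℕ} (hd : 2 ≤ d) (g : RatMap d) (n : ℕ) {u : ℂ → ℝ} {M : ℝ}
    (hM : ∀ x, |u x| ≤ M) : |av g n u| ≤ M := by
  have hM0 : 0 ≤ M := (abs_nonneg _).trans (hM 0)
  have hd0 : (0 : ℝ) < (d : ℝ) ^ n := by
    have : (0 : ℝ) < d := by
      have : 0 < d := by omega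
      exact_mod_cast this
    positivity
  have h1 : |((g.fib n 0).roots.map u).sum| ≤ (Multiset.card (g.fib n 0).roots : ℝ) * M := by
    generalize (g.fib n 0).roots = s
    induction s using Multiset.induction_on with
    | empty => simp
    | cons a s ih =>
      rw [Multiset.map_cons, Multiset.sum_cons, Multiset.card_cons]
      refine (abs_add_le _ _).trans ?_
      push_cast
      linarith [hM a]
  have h2 : (Multiset.card (g.fib n 0).roots : ℝ) ≤ (d : ℝ) ^ n := by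
    exact_mod_cast roots_card g n
  unfold av
  rw [abs_mul, abs_of_pos (inv_pos.2 hd0), ← div_eq_inv_mul, div_le_iff₀ hd0]
  refine h1.trans ?_
  rw [mul_comm]
  exact mul_le_mul_of_nonneg_left h2 hM0

theorem av_add {d : ℕ} (g : RatMap d) (n : ℕ) (u v : ℂ → ℝ) :
    av g n (fun x => u x + v x) = av g n u + av g n v := by
  unfold av
  rw [Multiset.sum_map_add, mul_add]

theorem av_smul {d : ℕ} (g : RatMap d) (n : ℕ) (c : ℝ) (u : ℂ → ℝ) :
    av g n (fun x => c * u x) = c * av g n u := by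
  unfold av
  rw [Multiset.sum_map_mul_left]
  ring

theorem av_nonneg {d : ℕ} (g : RatMap d) (n : ℕ) {u : ℂ → ℝ} (hu : ∀ x, 0 ≤ u x) :
    0 ≤ av g n u := by
  unfold av
  refine mul_nonneg (inv_nonneg.2 (by positivity)) (Multiset.sum_nonneg fun y hy => ?_)
  obtain ⟨x, -, rfl⟩ := Multiset.mem_map.1 hy
  exact hu x

/-! ### the limit functional -/

/-- an ultrafilter -/
noncomputable def UF : Ultrafilter ℕ := Filter.hyperfilter ℕ

theorem UF_le : (UF : Filter ℕ) ≤ atTop := by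
  unfold UF
  rw [← Nat.cofinite_eq_atTop]
  exact Filter.hyperfilter_le_cofinite

theorem lim_ex (a : ℕ → ℝ) {M : ℝ} (h : ∀ n, |a n| ≤ M) :
    Tendsto a (UF : Filter ℕ) (𝓝 (limUnder (UF : Filter ℕ) a)) := by
  refine tendsto_nhds_limUnder ?_
  have h1 : (UF.map a : Filter ℝ) ≤ 𝓟 (Icc (-M) M) := by
    rw [le_principal_iff, Ultrafilter.coe_map]
    exact Filter.mem_map.2 (Filter.Eventually.of_forall fun n => abs_le.1 (h n))
  obtain ⟨x, -, hx⟩ := isCompact_Icc.ultrafilter_le_nhds _ h1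
  exact ⟨x, hx⟩

/-- the limit functional on functions -/
noncomputable def LL {d : ℕ} (g : RatMap d) (u : ℂ → ℝ) : ℝ :=
  limUnder (UF : Filter ℕ) fun n => av g n u

theorem LL_tendsto {d : ℕ} (hd : 2 ≤ d) (g : RatMap d) {u : ℂ → ℝ} {M : ℝ}
    (hM : ∀ x, |u x| ≤ M) : Tendsto (fun n => av g n u) (UF : Filter ℕ) (𝓝 (LL g u)) :=
  lim_ex _ fun n => av_bd hd g n hM

theorem cc_bd (f : C_c(ℂ, ℝ)) : ∃ M, ∀ x, |f x| ≤ M := by
  obtain ⟨M, hM⟩ := f.hasCompactSupport.exists_bound_of_continuous f.continuous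
  exact ⟨M, fun x => hM x⟩

/-- the positive linear functional -/
noncomputable def Lam {d : ℕ} (hd : 2 ≤ d) (g : RatMap d) : C_c(ℂ, ℝ) →ₚ[ℝ] ℝ :=
  PositiveLinearMap.mk₀
    { toFun := fun f => LL g f
      map_add' := by
        intro f h
        obtain ⟨M, hM⟩ := cc_bd f
        obtain ⟨M', hM'⟩ := cc_bd h
        obtain ⟨M'', hM''⟩ := cc_bd (f + h)
        refine tendsto_nhds_unique (LL_tendsto hd g hM'') ?_
        refine ((LL_tendsto hd g hM).add (LL_tendsto hd g hM')).congr fun n => ?_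
        exact (av_add g n f h).symm
      map_smul' := by
        intro c f
        obtain ⟨M, hM⟩ := cc_bd f
        obtain ⟨M'', hM''⟩ := cc_bd (c • f)
        refine tendsto_nhds_unique (LL_tendsto hd g hM'') ?_
        refine ((LL_tendsto hd g hM).const_mul c).congr fun n => ?_
        exact (av_smul g n c f).symm }
    (by
      intro f hf
      obtain ⟨M, hM⟩ := cc_bd f
      exact ge_of_tendsto (LL_tendsto hd g hM) (Eventually.of_forall fun n =>
        av_nonneg g n fun x => hf x))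

theorem Lam_apply {d : ℕ} (hd : 2 ≤ d) (g : RatMap d) (f : C_c(ℂ, ℝ)) :
    Lam hd g f = LL g f := rfl

/-! ### smooth functions -/

/-- the Laplacian of a real function is continuous with compact support -/
theorem lap_cont {u : ℂ → ℝ} (hu : ContDiff ℝ 2 u) : Continuous (Δ u) := by
  have h1 : Continuous (iteratedFDeriv ℝ 2 u) := hu.continuous_iteratedFDeriv (by norm_num)
  rw [InnerProductSpace.laplacian_eq_iteratedFDeriv_complexPlane]
  have h2 : ∀ m : Fin 2 → ℂ, Continuous fun x => iteratedFDeriv ℝ 2 u x m := fun m =>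
    (ContinuousMultilinearMap.apply ℝ (fun _ : Fin 2 => ℂ) ℝ m).continuous.comp h1
  exact (h2 _).add (h2 _)

theorem lap_supp {u : ℂ → ℝ} (hc : HasCompactSupport u) : HasCompactSupport (Δ u) := by
  have h1 : HasCompactSupport (iteratedFDeriv ℝ 2 u) := hc.iteratedFDeriv 2
  rw [InnerProductSpace.laplacian_eq_iteratedFDeriv_complexPlane]
  have h2 := h1.comp_left (g := fun T : ContinuousMultilinearMap ℝ (fun _ : Fin 2 => ℂ) ℝ =>
    T ![1, 1] + T ![Complex.I, Complex.I]) (by simp)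
  exact h2

theorem lapC_ofReal (u : ℂ → ℝ) (w : ℂ) : lapC (fun x => (u x : ℂ)) w = ((Δ u) w : ℂ) := by
  unfold lapC
  have h1 : (fun x : ℂ => ((u x : ℂ)).re) = u := by funext x; simp
  have h2 : (fun x : ℂ => ((u x : ℂ)).im) = fun _ => (0 : ℝ) := by funext x; simp
  rw [h1, h2]
  simp

theorem dens_ofReal (u : ℂ → ℝ) (w : ℂ) :
    dens (fun x => (u x : ℂ)) w = (((2 * Real.pi)⁻¹ * (Δ u) w : ℝ) : ℂ) := by
  unfold dens
  rw [lapC_ofReal]
  push_cast
  rfl

theorem ofReal_smooth {u : ℂ → ℝ} (hu : ContDiff ℝ 2 u) :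
    ContDiff ℝ 2 (fun x => (u x : ℂ)) := Complex.ofRealCLM.contDiff.comp hu

theorem ofReal_supp {u : ℂ → ℝ} (hc : HasCompactSupport u) :
    HasCompactSupport (fun x => (u x : ℂ)) := hc.comp_left (g := ((↑) : ℝ → ℂ)) rfl

/-- the integral of the Laplacian and the value at `0` -/
theorem ru_facts (h2 : T_RU) {u : ℂ → ℝ} (hu : ContDiff ℝ 2 u) (hc : HasCompactSupport u) :
    ∫ w, (Δ u) w = 0 ∧ ∫ w, Real.log ‖w‖ * (Δ u) w = 2 * Real.pi * u 0 := by
  obtain ⟨⟨-, -, h3⟩, h4⟩ := h2 _ (ofReal_smooth hu) (ofReal_supp hc)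
  have hpi : (2 * Real.pi) ≠ 0 := by positivity
  constructor
  · simp_rw [dens_ofReal] at h3
    rw [integral_complex_ofReal, integral_const_mul] at h3
    have h5 : (2 * Real.pi)⁻¹ * ∫ w, (Δ u) w = 0 := by exact_mod_cast h3
    rcases mul_eq_zero.1 h5 with h | h
    · exact absurd h (inv_ne_zero hpi)
    · exact h
  · have h5 := congrFun h4 0
    unfold pot at h5
    simp_rw [dens_ofReal] at h5
    have h6 : ∀ w : ℂ, (Real.log ‖(0 : ℂ) - w‖ : ℂ) * (((2 * Real.pi)⁻¹ * (Δ u) w : ℝ) : ℂ) =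
        (((2 * Real.pi)⁻¹ * (Real.log ‖w‖ * (Δ u) w) : ℝ) : ℂ) := by
      intro w
      rw [zero_sub, norm_neg]
      push_cast
      ring
    simp_rw [h6] at h5
    rw [integral_complex_ofReal, integral_const_mul] at h5
    have h7 : (2 * Real.pi)⁻¹ * ∫ w, Real.log ‖w‖ * (Δ u) w = u 0 := by exact_mod_cast h5
    rw [← h7]
    field_simp

/-- convergence for smooth functions -/
theorem av_tendsto (h1 : T_UNI) (h2 : T_RU) {d : ℕ} (hd : 2 ≤ d) (g : RatMap d) {κ : ℝ}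
    (hκ : Good g κ) {G : ℂ → ℝ} (hG : GreenBd g G) {u : ℂ → ℝ} (hu : ContDiff ℝ 2 u)
    (hc : HasCompactSupport u) :
    Tendsto (fun n => av g n u) atTop (𝓝 ((2 * Real.pi)⁻¹ * ∫ x, G x * (Δ u) x)) := by
  obtain ⟨h3, h4⟩ := h2 _ (ofReal_smooth hu) (ofReal_supp hc)
  obtain ⟨C, hC0, hC⟩ := h1 d hd g κ hκ G hG _ h3
  rw [h4] at hC
  have hlim : Tendsto (fun n : ℕ => C * (κ / d) ^ n) atTop (𝓝 0) := by
    have hd0 : (0 : ℝ) < d := by
      have : 0 < d := by omega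
      exact_mod_cast this
    have h5 : Tendsto (fun n : ℕ => (κ / d) ^ n) atTop (𝓝 0) :=
      tendsto_pow_atTop_nhds_zero_of_lt_one (div_nonneg (by linarith [hκ.1]) hd0.le)
        ((div_lt_one hd0).2 hκ.2.1)
    simpa using h5.const_mul C
  rw [tendsto_iff_norm_sub_tendsto_zero]
  refine squeeze_zero (fun n => norm_nonneg _) (fun n => ?_) hlim
  refine le_trans (le_of_eq ?_) (hC n 0)
  have e1 : ((g.fib n 0).roots.map fun x => (u x : ℂ)).sum =
      (((g.fib n 0).roots.map u).sum : ℂ) := by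
    generalize (g.fib n 0).roots = s
    induction s using Multiset.induction_on with
    | empty => simp
    | cons a s ih =>
      rw [Multiset.map_cons, Multiset.sum_cons, Multiset.map_cons, Multiset.sum_cons, ih]
      push_cast
      rfl
  have e2 : ∫ w, (G w : ℂ) * dens (fun x => (u x : ℂ)) w =
      (((2 * Real.pi)⁻¹ * ∫ x, G x * (Δ u) x : ℝ) : ℂ) := by
    simp_rw [dens_ofReal]
    have h6 : ∀ w : ℂ, (G w : ℂ) * (((2 * Real.pi)⁻¹ * (Δ u) w : ℝ) : ℂ) =
        (((2 * Real.pi)⁻¹ * (G w * (Δ u) w) : ℝ) : ℂ) := by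
      intro w
      push_cast
      ring
    simp_rw [h6]
    rw [integral_complex_ofReal, integral_const_mul]
  rw [e1, e2]
  have e3 : ((d : ℂ) ^ n)⁻¹ * (((g.fib n 0).roots.map u).sum : ℂ) -
      (((2 * Real.pi)⁻¹ * ∫ x, G x * (Δ u) x : ℝ) : ℂ) =
      ((av g n u - (2 * Real.pi)⁻¹ * ∫ x, G x * (Δ u) x : ℝ) : ℂ) := by
    unfold av
    push_cast
    ring
  rw [e3, Complex.norm_real]

/-! ### dilations -/

theorem lap_dil {f : ℂ → ℝ} (hf : ContDiff ℝ 2 f) (c : ℝ) (x : ℂ) :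
    (Δ fun y => f (c • y)) x = c ^ 2 * (Δ f) (c • x) := by
  have hf1 : Differentiable ℝ f := hf.differentiable (by norm_num)
  have hf2 : ContDiff ℝ 1 (fderiv ℝ f) := hf.fderiv_right (by norm_num)
  have hd2 : Differentiable ℝ (fderiv ℝ f) := hf2.differentiable one_ne_zero
  have hs : ∀ z : ℂ, HasFDerivAt (fun y : ℂ => c • y) (c • ContinuousLinearMap.id ℝ ℂ) z :=
    fun z => (hasFDerivAt_id z).const_smul c
  have e1 : fderiv ℝ (fun y => f (c • y)) = fun z => c • fderiv ℝ f (c • z) := by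
    funext z
    have h := ((hf1 (c • z)).hasFDerivAt.comp z (hs z)).fderiv
    rw [show (fun y => f (c • y)) = f ∘ fun y => c • y from rfl, h]
    ext v
    simp
  have e2 : fderiv ℝ (fun z => c • fderiv ℝ f (c • z)) x = c • c • fderiv ℝ (fderiv ℝ f) (c • x) := by
    have h := ((hd2 (c • x)).hasFDerivAt.comp x (hs x))
    have h' := (h.const_smul c).fderiv
    rw [show (fun z => c • fderiv ℝ f (c • z)) = c • (fderiv ℝ f ∘ fun y => c • y) from rfl, h']
    congr 1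
    ext v w
    simp
  rw [InnerProductSpace.laplacian_eq_iteratedFDeriv_complexPlane, InnerProductSpace.laplacian_eq_iteratedFDeriv_complexPlane]
  simp only [iteratedFDeriv_two_apply, Matrix.cons_val_zero, Matrix.cons_val_one]
  rw [e1, e2]
  simp only [_root_.smul_apply, smul_eq_mul]
  ring

/-- integrability of the product of the logarithm and a function which vanishes near `0` -/
theorem log_cont {h : ℂ → ℝ} (hh : Continuous h) {R : ℝ} (hR : 0 < R) (h0 : ∀ x, ‖x‖ < R → h x = 0) :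
    Continuous fun x : ℂ => Real.log ‖x‖ * h x := by
  rw [continuous_iff_continuousAt]
  intro x
  by_cases hx : x = 0
  · have h1 : (fun x : ℂ => Real.log ‖x‖ * h x) =ᶠ[𝓝 x] fun _ => 0 := by
      rw [hx]
      filter_upwards [Metric.ball_mem_nhds (0 : ℂ) hR] with y hy
      rw [h0 y (by simpa using hy), mul_zero]
    exact continuousAt_const.congr h1.symm
  · have h1 : ‖x‖ ≠ 0 := norm_ne_zero_iff.2 hx
    exact ((Real.continuousAt_log h1).comp continuous_norm.continuousAt).mul hh.continuousAt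

/-! ### the mass -/

/-- the bump -/
noncomputable def bmp : ContDiffBump (0 : ℂ) := ⟨1, 2, one_pos, one_lt_two⟩

/-- the cutoff functions -/
noncomputable def ct (k : ℕ) (x : ℂ) : ℝ := bmp (((k : ℝ) + 1)⁻¹ • x)

theorem kp (k : ℕ) : (0 : ℝ) < (k : ℝ) + 1 := by positivity

theorem ct_smooth (k : ℕ) : ContDiff ℝ 2 (ct k) := by
  unfold ct
  exact (bmp.contDiff (n := 2)).comp (contDiff_const_smul _)

theorem ct_supp (k : ℕ) : HasCompactSupport (ct k) := by
  have h : HasCompactSupport (bmp : ℂ → ℝ) := ContDiffBump.hasCompactSupport bmp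
  exact h.comp_homeomorph (Homeomorph.smulOfNeZero ((k : ℝ) + 1)⁻¹ (inv_ne_zero (kp k).ne'))

theorem ct_nonneg (k : ℕ) (x : ℂ) : 0 ≤ ct k x := bmp.nonneg

theorem ct_le (k : ℕ) (x : ℂ) : ct k x ≤ 1 := bmp.le_one

theorem ct_one (k : ℕ) {x : ℂ} (hx : ‖x‖ ≤ (k : ℝ) + 1) : ct k x = 1 := by
  unfold ct
  refine bmp.one_of_mem_closedBall ?_
  rw [mem_closedBall_zero_iff, norm_smul, norm_inv, Real.norm_eq_abs, abs_of_pos (kp k),
    inv_mul_le_iff₀ (kp k)]
  change ‖x‖ ≤ ((k : ℝ) + 1) * 1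
  linarith

theorem lap_ct_zero (k : ℕ) {x : ℂ} (hx : ‖x‖ < (k : ℝ) + 1) : (Δ (ct k)) x = 0 := by
  have h : ct k =ᶠ[𝓝 x] fun _ => (1 : ℝ) := by
    have : {y : ℂ | ‖y‖ < (k : ℝ) + 1} ∈ 𝓝 x :=
      (isOpen_lt continuous_norm continuous_const).mem_nhds hx
    filter_upwards [this] with y hy
    exact ct_one k (le_of_lt hy)
  have h1 := h.iteratedFDeriv (𝕜 := ℝ) 2
  rw [InnerProductSpace.laplacian_eq_iteratedFDeriv_complexPlane]
  simp only
  rw [h1.eq_of_nhds, iteratedFDeriv_const_of_ne two_ne_zero]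
  simp

theorem lap_ct_int (k : ℕ) : ∫ x, |(Δ (ct k)) x| = ∫ x, |(Δ (bmp : ℂ → ℝ)) x| := by
  have h1 : ∀ x, |(Δ (ct k)) x| =
      (((k : ℝ) + 1)⁻¹) ^ 2 * |(Δ (bmp : ℂ → ℝ)) ((((k : ℝ) + 1)⁻¹) • x)| := by
    intro x
    have h := lap_dil (bmp.contDiff (n := 2)) (((k : ℝ) + 1)⁻¹) x
    have h' : (Δ (ct k)) x = (((k : ℝ) + 1)⁻¹) ^ 2 * (Δ (bmp : ℂ → ℝ)) ((((k : ℝ) + 1)⁻¹) • x) := h
    rw [h', abs_mul, abs_of_nonneg (by positivity : (0 : ℝ) ≤ (((k : ℝ) + 1)⁻¹) ^ 2)]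
  simp_rw [h1]
  have h0 := Measure.integral_comp_smul (volume : Measure ℂ)
    (fun x => |(Δ (bmp : ℂ → ℝ)) x|) (((k : ℝ) + 1)⁻¹)
  rw [Complex.finrank_real_complex, smul_eq_mul] at h0
  rw [integral_const_mul, h0, ← mul_assoc]
  have h2 : (((k : ℝ) + 1)⁻¹) ^ 2 * |((((k : ℝ) + 1)⁻¹) ^ 2)⁻¹| = 1 := by
    have h3 : (((k : ℝ) + 1)⁻¹) ^ 2 ≠ 0 := pow_ne_zero 2 (inv_ne_zero (kp k).ne')
    rw [abs_of_nonneg (by positivity), mul_inv_cancel₀ h3]
  rw [h2, one_mul]

theorem mass_tendsto (h2 : T_RU) {d : ℕ} (g : RatMap d) {G : ℂ → ℝ} (hG : GreenBd g G) :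
    Tendsto (fun k => (2 * Real.pi)⁻¹ * ∫ x, G x * (Δ (ct k)) x) atTop (𝓝 1) := by
  obtain ⟨hGc, -, -, L, hL⟩ := hG
  set J : ℝ := ∫ x, |(Δ (bmp : ℂ → ℝ)) x| with hJ
  have hJ0 : 0 ≤ J := integral_nonneg fun x => abs_nonneg _
  rw [Metric.tendsto_atTop]
  intro ε hε
  -- the error is small
  have hL' : ∀ᶠ x in Bornology.cobounded ℂ, |G x - Real.log ‖x‖ - L| < ε / (J + 1) := by
    have := Metric.tendsto_nhds.1 hL (ε / (J + 1)) (by positivity)
    filter_upwards [this] with x hx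
    rwa [Real.dist_eq] at hx
  obtain ⟨r, hr⟩ : ∃ r : ℝ, ∀ x : ℂ, r ≤ ‖x‖ → |G x - Real.log ‖x‖ - L| < ε / (J + 1) := by
    have := (Filter.hasBasis_cobounded_norm (E := ℂ)).eventually_iff.1 hL'
    obtain ⟨r, -, hr⟩ := this
    exact ⟨r, fun x hx => hr hx⟩
  refine ⟨⌈r⌉₊, fun k hk => ?_⟩
  have hrk : r ≤ (k : ℝ) + 1 := by
    have h1 : r ≤ (⌈r⌉₊ : ℝ) := Nat.le_ceil r
    have h3 : ((⌈r⌉₊ : ℕ) : ℝ) ≤ k := by exact_mod_cast hk
    linarith
  obtain ⟨f1, f2⟩ := ru_facts h2 (ct_smooth k) (ct_supp k)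
  rw [ct_one k (by rw [norm_zero]; exact (kp k).le), mul_one] at f2
  have c1 := lap_cont (ct_smooth k)
  have c2 := lap_supp (ct_supp k)
  have c0 : ∀ x : ℂ, ‖x‖ < (k : ℝ) + 1 → (Δ (ct k)) x = 0 := fun x hx => lap_ct_zero k hx
  have i1 : Integrable fun x => G x * (Δ (ct k)) x :=
    (hGc.mul c1).integrable_of_hasCompactSupport c2.mul_left
  have i2 : Integrable fun x : ℂ => Real.log ‖x‖ * (Δ (ct k)) x :=
    (log_cont c1 (kp k) c0).integrable_of_hasCompactSupport c2.mul_left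
  have i3 : Integrable (Δ (ct k)) := c1.integrable_of_hasCompactSupport c2
  have e1 : ∫ x, (G x - Real.log ‖x‖ - L) * (Δ (ct k)) x =
      (∫ x, G x * (Δ (ct k)) x) - 2 * Real.pi := by
    have e2 : ∀ x, (G x - Real.log ‖x‖ - L) * (Δ (ct k)) x =
        (G x * (Δ (ct k)) x - Real.log ‖x‖ * (Δ (ct k)) x) - L * (Δ (ct k)) x := fun x => by ring
    simp_rw [e2]
    have i12 : Integrable fun x => G x * (Δ (ct k)) x - Real.log ‖x‖ * (Δ (ct k)) x := i1.sub i2
    rw [integral_sub i12 (i3.const_mul L), integral_sub i1 i2, integral_const_mul, f1, f2]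
    ring
  have e3 : |∫ x, (G x - Real.log ‖x‖ - L) * (Δ (ct k)) x| ≤ ε / (J + 1) * J := by
    have h3 : ∀ x, ‖(G x - Real.log ‖x‖ - L) * (Δ (ct k)) x‖ ≤ ε / (J + 1) * |(Δ (ct k)) x| := by
      intro x
      rw [norm_mul, Real.norm_eq_abs, Real.norm_eq_abs]
      by_cases hx : ‖x‖ < (k : ℝ) + 1
      · rw [c0 x hx]; simp
      · exact mul_le_mul_of_nonneg_right (hr x (hrk.trans (not_lt.1 hx))).le (abs_nonneg _)
    have h4 := norm_integral_le_of_norm_le (i3.abs.const_mul (ε / (J + 1)))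
      (Eventually.of_forall h3)
    rw [integral_const_mul, lap_ct_int] at h4
    exact h4
  have hpi : (0 : ℝ) < 2 * Real.pi := by positivity
  have hpi1 : (1 : ℝ) ≤ 2 * Real.pi := by linarith [Real.pi_gt_three]
  have e4 : ((2 * Real.pi)⁻¹ * ∫ x, G x * (Δ (ct k)) x) - 1 =
      (2 * Real.pi)⁻¹ * ∫ x, (G x - Real.log ‖x‖ - L) * (Δ (ct k)) x := by
    rw [e1, mul_sub, inv_mul_cancel₀ hpi.ne']
  rw [Real.dist_eq, e4, abs_mul, abs_of_pos (inv_pos.2 hpi)]
  have h5 : (2 * Real.pi)⁻¹ ≤ 1 := inv_le_one_of_one_le₀ hpi1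
  have h6 : ε / (J + 1) * J < ε := by
    rw [div_mul_eq_mul_div, div_lt_iff₀ (by linarith)]
    nlinarith
  have h7 : (2 * Real.pi)⁻¹ * |∫ x, (G x - Real.log ‖x‖ - L) * (Δ (ct k)) x| ≤
      1 * |∫ x, (G x - Real.log ‖x‖ - L) * (Δ (ct k)) x| :=
    mul_le_mul_of_nonneg_right h5 (abs_nonneg _)
  linarith

/-- the Green measure -/
theorem pf_MU (h1 : T_UNI) (h2 : T_RU) : T_MU := by
  intro d hd g κ hκ G hG
  set μ : Measure ℂ := RealRMK.rieszMeasure (Lam hd g) with hμ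
  have hint : ∀ u : ℂ → ℝ, ContDiff ℝ 2 u → HasCompactSupport u →
      ∫ x, u x ∂μ = (2 * Real.pi)⁻¹ * ∫ x, G x * (Δ u) x := by
    intro u hu hc
    have h3 := RealRMK.integral_rieszMeasure (Lam hd g) ⟨⟨u, hu.continuous⟩, hc⟩
    rw [Lam_apply] at h3
    have h4 : LL g u = (2 * Real.pi)⁻¹ * ∫ x, G x * (Δ u) x :=
      (((av_tendsto h1 h2 hd g hκ hG hu hc).mono_left UF_le)).limUnder_eq
    exact h3.trans h4
  have hui : ∀ k, Integrable (ct k) μ := fun k =>
    (ct_smooth k).continuous.integrable_of_hasCompactSupport (ct_supp k)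
  have hlim : Tendsto (fun k => ∫ x, ct k x ∂μ) atTop (𝓝 1) := by
    refine (mass_tendsto h2 g hG).congr fun k => ?_
    exact (hint _ (ct_smooth k) (ct_supp k)).symm
  have hl : ∀ k, ∫⁻ x, ENNReal.ofReal (ct k x) ∂μ = ENNReal.ofReal (∫ x, ct k x ∂μ) := fun k =>
    (ofReal_integral_eq_lintegral_ofReal (hui k) (Eventually.of_forall (ct_nonneg k))).symm
  have hlim' : Tendsto (fun k => ∫⁻ x, ENNReal.ofReal (ct k x) ∂μ) atTop (𝓝 1) := by
    simp_rw [hl]
    have := (ENNReal.continuous_ofReal.tendsto 1).comp hlim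
    rw [ENNReal.ofReal_one] at this
    exact this
  refine ⟨μ, ⟨le_antisymm ?_ ?_⟩, hint⟩
  · have h3 : ∫⁻ x, (liminf (fun k => ENNReal.ofReal (ct k x)) atTop) ∂μ ≤
        liminf (fun k => ∫⁻ x, ENNReal.ofReal (ct k x) ∂μ) atTop :=
      lintegral_liminf_le fun k => (ct_smooth k).continuous.measurable.ennreal_ofReal
    rw [hlim'.liminf_eq] at h3
    have h4 : ∀ x : ℂ, liminf (fun k => ENNReal.ofReal (ct k x)) atTop = 1 := by
      intro x
      refine Tendsto.liminf_eq ?_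
      refine tendsto_const_nhds.congr' ?_
      filter_upwards [eventually_ge_atTop ⌈‖x‖⌉₊] with k hk
      have h5 : ‖x‖ ≤ (k : ℝ) + 1 := by
        have h6 := Nat.le_ceil ‖x‖
        have h7 : ((⌈‖x‖⌉₊ : ℕ) : ℝ) ≤ k := by exact_mod_cast hk
        linarith
      rw [ct_one k h5, ENNReal.ofReal_one]
    simp_rw [h4] at h3
    rwa [lintegral_one] at h3
  · refine le_of_tendsto hlim' (Eventually.of_forall fun k => ?_)
    calc ∫⁻ x, ENNReal.ofReal (ct k x) ∂μ ≤ ∫⁻ _x, 1 ∂μ := by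
          refine lintegral_mono fun x => ?_
          rw [← ENNReal.ofReal_one]
          exact ENNReal.ofReal_le_ofReal (ct_le k x)
      _ = μ univ := lintegral_one

end Pool.Agent.H59.UDA.MU
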