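import Pool.Agent.H83.UE.Targets
import Pool.Agent.H20.LIM.Targets2

/-!
# Board uda_modules, row CP: Cauchy-Pompeiu by potentials, preparations
-/

set_option autoImplicit false

namespace Pool.Agent.H59.UDA

open Set Complex Topology Filter MeasureTheory
open Pool.Agent.H83.UE
open Pool.Agent.H20.LIM (T_FUN T_LI)
open scoped ContDiff Convolution Laplacian ENNReal

/-- the logarithm -/
noncomputable def lg (t : ℂ) : ℂ := (Real.log ‖t‖ : ℂ)

theorem locInt_lg (hLI : T_LI) : LocallyIntegrable lg := by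
  have h := hLI (fun z => z) differentiable_id ⟨1, one_ne_zero⟩
  intro x
  obtain ⟨s, hs, h1⟩ := h x
  exact ⟨s, hs, h1.ofReal⟩

theorem pot_eq (ρ : ℂ → ℂ) (x : ℂ) :
    pot ρ x = (lg ⋆[ContinuousLinearMap.mul ℝ ℂ, volume] ρ) x := by
  rw [convolution_eq_swap]
  rfl

theorem pot_eq' (ρ : ℂ → ℂ) (x : ℂ) : pot ρ x = ∫ t, lg t * ρ (x - t) := by
  rw [pot_eq]
  rfl

section conv

variable {ρ : ℂ → ℂ}

theorem conv_int (hLI : T_LI) (hg : Continuous ρ) (hc : HasCompactSupport ρ) (z : ℂ) :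
    Integrable (fun t => lg t * ρ (z - t)) :=
  hc.convolutionExists_right (ContinuousLinearMap.mul ℝ ℂ) (locInt_lg hLI) hg z

theorem conv_int' (hLI : T_LI) (hg : Continuous ρ) (hc : HasCompactSupport ρ) (z : ℂ) :
    Integrable (fun t => lg (z - t) * ρ t) := by
  have h := (conv_int hLI hg hc z).comp_sub_left z
  simpa using h

theorem pot_smooth (hLI : T_LI) (hg : ContDiff ℝ 1 ρ) (hc : HasCompactSupport ρ) :
    ContDiff ℝ 1 (pot ρ) := by
  have h : pot ρ = (lg ⋆[ContinuousLinearMap.mul ℝ ℂ, volume] ρ) := funext (pot_eq ρ)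
  rw [h]
  exact hc.contDiff_convolution_right _ (locInt_lg hLI) hg

theorem fderiv_pot (hLI : T_LI) (hg : ContDiff ℝ 1 ρ) (hc : HasCompactSupport ρ) (z v : ℂ) :
    fderiv ℝ (pot ρ) z v = ∫ t, lg t * fderiv ℝ ρ (z - t) v := by
  have h : pot ρ = (lg ⋆[ContinuousLinearMap.mul ℝ ℂ, volume] ρ) := funext (pot_eq ρ)
  have hfc : Continuous (fderiv ℝ ρ) := hg.continuous_fderiv one_ne_zero
  have hfs : HasCompactSupport (fderiv ℝ ρ) := hc.fderiv ℝ
  have h1 := hc.hasFDerivAt_convolution_right (ContinuousLinearMap.mul ℝ ℂ) (locInt_lg hLI) hg z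
  rw [h, h1.fderiv, convolution_precompR_apply _ (locInt_lg hLI) hfs hfc z v]
  rfl

theorem dz_pot (hLI : T_LI) (hg : ContDiff ℝ 1 ρ) (hc : HasCompactSupport ρ) (z : ℂ) :
    dz (pot ρ) z = ∫ t, lg t * dz ρ (z - t) := by
  have hfc : Continuous (fderiv ℝ ρ) := hg.continuous_fderiv one_ne_zero
  have hfs : HasCompactSupport (fderiv ℝ ρ) := hc.fderiv ℝ
  have hint : ∀ v : ℂ, Integrable (fun t => lg t * fderiv ℝ ρ (z - t) v) := by
    intro v
    have hs : HasCompactSupport (fun a => fderiv ℝ ρ a v) := by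
      refine hfs.comp_left (g := fun L : ℂ →L[ℝ] ℂ => L v) ?_
      rfl
    exact conv_int hLI (hfc.clm_apply continuous_const) hs z
  unfold dz
  rw [fderiv_pot hLI hg hc, fderiv_pot hLI hg hc, ← integral_const_mul,
    ← integral_sub (hint 1) ((hint I).const_mul I), ← integral_div]
  congr 1
  funext t
  ring

end conv

section second

variable {χ : ℂ → ℂ}

/-- `∂/∂z̄` of a `C²` function -/
theorem dzb_smooth (hχ : ContDiff ℝ 2 χ) : ContDiff ℝ 1 (dzb χ) := by
  have h : ContDiff ℝ 1 (fderiv ℝ χ) := hχ.fderiv_right (by norm_num)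
  have h1 : ∀ v : ℂ, ContDiff ℝ 1 (fun z => fderiv ℝ χ z v) := fun v =>
    h.clm_apply contDiff_const
  unfold dzb
  exact ((h1 1).add (contDiff_const.mul (h1 I))).div_const 2

theorem dzb_supp (hc : HasCompactSupport χ) : HasCompactSupport (dzb χ) := by
  have hfs : HasCompactSupport (fderiv ℝ χ) := hc.fderiv ℝ
  have h := hfs.comp_left (g := fun L : ℂ →L[ℝ] ℂ => (L 1 + I * L I) / 2) (by simp)
  exact h

/-- `∂/∂z ∂/∂z̄` is a quarter of the Laplacian -/
theorem dz_dzb (hχ : ContDiff ℝ 2 χ) (w : ℂ) : dz (dzb χ) w = (1 / 4 : ℂ) * (Δ χ) w := by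
  have h : ContDiff ℝ 1 (fderiv ℝ χ) := hχ.fderiv_right (by norm_num)
  have hd : DifferentiableAt ℝ (fderiv ℝ χ) w := h.differentiable one_ne_zero w
  have h1 : ∀ v : ℂ, DifferentiableAt ℝ (fun z => fderiv ℝ χ z v) w := fun v =>
    hd.clm_apply (differentiableAt_const v)
  have h2 : ∀ v u : ℂ, fderiv ℝ (fun z => fderiv ℝ χ z v) w u = fderiv ℝ (fderiv ℝ χ) w u v := by
    intro v u
    rw [fderiv_clm_apply hd (differentiableAt_const v)]
    simp
  have h3 : ∀ u : ℂ, fderiv ℝ (dzb χ) w u =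
      (fderiv ℝ (fderiv ℝ χ) w u 1 + I * fderiv ℝ (fderiv ℝ χ) w u I) / 2 := by
    intro u
    have e : dzb χ = fun z => (fderiv ℝ χ z 1 + I * fderiv ℝ χ z I) * (2 : ℂ)⁻¹ := by
      funext z
      unfold dzb
      rw [div_eq_mul_inv]
    have hI : DifferentiableAt ℝ (fun z => I * fderiv ℝ χ z I) w := (h1 I).const_mul I
    have hs : DifferentiableAt ℝ (fun z => fderiv ℝ χ z 1 + I * fderiv ℝ χ z I) w :=
      (h1 1).add hI
    have e2 : fderiv ℝ (fun z => (fderiv ℝ χ z 1 + I * fderiv ℝ χ z I) * (2 : ℂ)⁻¹) w u =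
        fderiv ℝ (fun z => fderiv ℝ χ z 1 + I * fderiv ℝ χ z I) w u * (2 : ℂ)⁻¹ := by
      rw [fderiv_mul_const hs]
      simp [mul_comm]
    have e3 : fderiv ℝ (fun z => fderiv ℝ χ z 1 + I * fderiv ℝ χ z I) w u =
        fderiv ℝ (fun z => fderiv ℝ χ z 1) w u + fderiv ℝ (fun z => I * fderiv ℝ χ z I) w u := by
      rw [fderiv_fun_add (h1 1) hI]
      rfl
    have e4 : fderiv ℝ (fun z => I * fderiv ℝ χ z I) w u =
        I * fderiv ℝ (fun z => fderiv ℝ χ z I) w u := by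
      rw [fderiv_const_mul (h1 I)]
      simp
    rw [e, e2, e3, e4, h2, h2, div_eq_mul_inv]
  have hsym : fderiv ℝ (fderiv ℝ χ) w 1 I = fderiv ℝ (fderiv ℝ χ) w I 1 := by
    have hs : IsSymmSndFDerivAt ℝ χ w :=
      hχ.contDiffAt.isSymmSndFDerivAt (by simp)
    exact hs 1 I
  rw [InnerProductSpace.laplacian_eq_iteratedFDeriv_complexPlane]
  simp only [iteratedFDeriv_two_apply, Matrix.cons_val_zero, Matrix.cons_val_one]
  unfold dz
  rw [h3, h3, hsym]
  linear_combination (-(1 / 4 : ℂ) * fderiv ℝ (fderiv ℝ χ) w I I) * Complex.I_sq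

/-- the Laplacian of the real part and the imaginary part -/
theorem lap_re_im (hχ : ContDiff ℝ 2 χ) (w : ℂ) :
    (Δ χ) w = ((Δ fun x => (χ x).re) w : ℂ) + I * ((Δ fun x => (χ x).im) w : ℂ) := by
  have h1 := (hχ.contDiffAt (x := w)).laplacian_CLM_comp_left (l := reCLM)
  have h2 := (hχ.contDiffAt (x := w)).laplacian_CLM_comp_left (l := imCLM)
  have e1 : (Δ fun x => (χ x).re) w = ((Δ χ) w).re := h1
  have e2 : (Δ fun x => (χ x).im) w = ((Δ χ) w).im := h2
  rw [e1, e2, mul_comm I]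
  exact (Complex.re_add_im _).symm

/-- the fundamental solution -/
theorem fun_sol (hFUN : T_FUN) (hχ : ContDiff ℝ 2 χ) (hc : HasCompactSupport χ) (z : ℂ) :
    ∫ w, lg (z - w) * (Δ χ) w = 2 * Real.pi * χ z := by
  have hr : ContDiff ℝ 2 (fun x => (χ x).re) := reCLM.contDiff.comp hχ
  have hi : ContDiff ℝ 2 (fun x => (χ x).im) := imCLM.contDiff.comp hχ
  have hrs : HasCompactSupport (fun x => (χ x).re) := hc.comp_left (g := Complex.re) rfl
  have his : HasCompactSupport (fun x => (χ x).im) := hc.comp_left (g := Complex.im) rfl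
  obtain ⟨a1, a2⟩ := hFUN _ hr hrs z
  obtain ⟨b1, b2⟩ := hFUN _ hi his z
  have e : ∀ w, lg (z - w) * (Δ χ) w =
      ((Real.log ‖w - z‖ * (Δ fun x => (χ x).re) w : ℝ) : ℂ) +
      I * ((Real.log ‖w - z‖ * (Δ fun x => (χ x).im) w : ℝ) : ℂ) := by
    intro w
    rw [lap_re_im hχ, lg, norm_sub_rev]
    push_cast
    ring
  have a1' : Integrable (fun w => ((Real.log ‖w - z‖ * (Δ fun x => (χ x).re) w : ℝ) : ℂ)) :=
    a1.ofReal
  have b1' : Integrable (fun w =>
      I * ((Real.log ‖w - z‖ * (Δ fun x => (χ x).im) w : ℝ) : ℂ)) := b1.ofReal.const_mul I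
  simp_rw [e]
  rw [integral_add a1' b1', integral_const_mul, integral_complex_ofReal,
    integral_complex_ofReal, a2, b2]
  push_cast
  conv_rhs => rw [← Complex.re_add_im (χ z)]
  ring

end second

/-- the elementary bound for the logarithm -/
theorem log_bd {a b : ℝ} (ha : 0 < a) (hb : |b - a| ≤ a / 2) :
    |Real.log b - Real.log a| ≤ 2 * |b - a| / a := by
  have h1 := (abs_le.1 hb).1
  have hb0 : 0 < b := by linarith
  rw [← Real.log_div hb0.ne' ha.ne', abs_le]
  constructor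
  · have h2 : Real.log (a / b) ≤ a / b - 1 := Real.log_le_sub_one_of_pos (div_pos ha hb0)
    have h3 : Real.log (b / a) = -Real.log (a / b) := by
      rw [← Real.log_inv, inv_div]
    have h4 : a / b - 1 ≤ 2 * |b - a| / a := by
      have h5 : a / b - 1 = (a - b) / b := by field_simp
      rw [h5, div_le_div_iff₀ hb0 ha]
      have h6 : a - b ≤ |b - a| := by rw [abs_sub_comm]; exact le_abs_self _
      have h7 : a ≤ 2 * b := by linarith
      have h8 : (a - b) * a ≤ |b - a| * a := mul_le_mul_of_nonneg_right h6 ha.le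
      have h9 : |b - a| * a ≤ |b - a| * (2 * b) := mul_le_mul_of_nonneg_left h7 (abs_nonneg _)
      linarith
    rw [h3]
    linarith
  · have h2 : Real.log (b / a) ≤ b / a - 1 := Real.log_le_sub_one_of_pos (div_pos hb0 ha)
    have h4 : b / a - 1 ≤ 2 * |b - a| / a := by
      have h5 : b / a - 1 = (b - a) / a := by field_simp
      rw [h5]
      refine div_le_div_of_nonneg_right ?_ ha.le
      have := le_abs_self (b - a)
      have := abs_nonneg (b - a)
      linarith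
    linarith

/-- the potential decays -/
theorem pot_decay (hLI : T_LI) {ρ : ℂ → ℂ} (hg : Continuous ρ) (hc : HasCompactSupport ρ)
    (h0 : ∫ w, ρ w = 0) (hU : Continuous (pot ρ)) : ∃ B : ℝ, ∀ z, ‖pot ρ z‖ ≤ B / (1 + ‖z‖) := by
  obtain ⟨R₀, hR₀⟩ := hc.isCompact.isBounded.subset_closedBall (0 : ℂ)
  set R : ℝ := max R₀ 1 with hR
  have hR1 : 1 ≤ R := le_max_right _ _
  have hsup : ∀ w, ρ w ≠ 0 → ‖w‖ ≤ R := by
    intro w hw
    have h1 := hR₀ (subset_tsupport ρ hw)
    rw [mem_closedBall_zero_iff] at h1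
    exact h1.trans (le_max_left _ _)
  obtain ⟨M, hM⟩ := (isCompact_closedBall (0 : ℂ) (2 * R)).exists_bound_of_continuousOn hU.continuousOn
  have hI : Integrable ρ := hg.integrable_of_hasCompactSupport hc
  set J : ℝ := ∫ w, ‖ρ w‖ with hJ
  have hJ0 : 0 ≤ J := integral_nonneg fun w => norm_nonneg _
  have hM0 : 0 ≤ M := (norm_nonneg _).trans (hM 0 (by simp; linarith))
  refine ⟨M * (1 + 2 * R) + 4 * R * J, fun z => ?_⟩
  have hz1 : 0 < 1 + ‖z‖ := by positivity
  rw [le_div_iff₀ hz1]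
  by_cases hz : ‖z‖ ≤ 2 * R
  · have h1 := hM z (by rw [mem_closedBall_zero_iff]; exact hz)
    have h2 : ‖pot ρ z‖ * (1 + ‖z‖) ≤ M * (1 + 2 * R) :=
      mul_le_mul h1 (by linarith) hz1.le hM0
    have h3 : 0 ≤ 4 * R * J := by positivity
    linarith
  · rw [not_le] at hz
    have hz0 : 0 < ‖z‖ := by linarith
    have h1 : pot ρ z = ∫ w, (lg (z - w) - lg z) * ρ w := by
      have h2 : ∫ w, (lg (z - w) - lg z) * ρ w = (∫ w, lg (z - w) * ρ w) - ∫ w, lg z * ρ w := by
        rw [← integral_sub (conv_int' hLI hg hc z) (hI.const_mul _)]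
        congr 1
        funext w
        ring
      rw [h2, integral_const_mul, h0, mul_zero, sub_zero]
      rfl
    have h2 : ‖pot ρ z‖ ≤ ∫ w, 2 * R / ‖z‖ * ‖ρ w‖ := by
      rw [h1]
      refine norm_integral_le_of_norm_le (hI.norm.const_mul _) (Eventually.of_forall fun w => ?_)
      rw [norm_mul]
      by_cases hw : ρ w = 0
      · rw [hw]; simp
      · refine mul_le_mul_of_nonneg_right ?_ (norm_nonneg _)
        have hwR := hsup w hw
        have e1 : lg (z - w) - lg z = ((Real.log ‖z - w‖ - Real.log ‖z‖ : ℝ) : ℂ) := by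
          unfold lg; push_cast; rfl
        rw [e1, Complex.norm_real, Real.norm_eq_abs]
        have e2 : |‖z - w‖ - ‖z‖| ≤ ‖w‖ := by
          have := abs_norm_sub_norm_le (z - w) z
          simpa using this
        have e3 := log_bd hz0 (e2.trans (by linarith) : |‖z - w‖ - ‖z‖| ≤ ‖z‖ / 2)
        refine e3.trans (div_le_div_of_nonneg_right ?_ hz0.le)
        linarith
    rw [integral_const_mul] at h2
    have h3 : ‖pot ρ z‖ * (1 + ‖z‖) ≤ 2 * R / ‖z‖ * J * (1 + ‖z‖) :=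
      mul_le_mul_of_nonneg_right h2 hz1.le
    have h4 : 2 * R / ‖z‖ * J * (1 + ‖z‖) = 2 * R * J * ((1 + ‖z‖) / ‖z‖) := by
      field_simp
    have h5 : (1 + ‖z‖) / ‖z‖ ≤ 2 := by
      rw [div_le_iff₀ hz0]; linarith
    have h6 : 2 * R * J * ((1 + ‖z‖) / ‖z‖) ≤ 2 * R * J * 2 :=
      mul_le_mul_of_nonneg_left h5 (by positivity)
    have h7 : 0 ≤ M * (1 + 2 * R) := by positivity
    linarith

/-- the gradient decays -/
theorem grad_decay {U χ : ℂ → ℂ} {B R : ℝ} (hU : ContDiff ℝ 1 U) (hdz : ∀ z, dz U z = χ z)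
    (hχ : ∀ z, R < ‖z‖ → χ z = 0) (hR : 1 ≤ R) (hB : ∀ z, ‖U z‖ ≤ B / (1 + ‖z‖)) (z : ℂ)
    (hz : 2 * R ≤ ‖z‖) : ‖fderiv ℝ U z‖ ≤ 6 * B / ‖z‖ ^ 2 := by
  have hB0 : 0 ≤ B := by
    have h := (norm_nonneg _).trans (hB 0)
    simpa using h
  have hz0 : 0 < ‖z‖ := by linarith
  have hd : Differentiable ℝ U := hU.differentiable one_ne_zero
  set V : ℂ → ℂ := fun w => (starRingEnd ℂ) (U w) with hV
  have hVf : ∀ w, HasFDerivAt V ((conjCLE : ℂ →L[ℝ] ℂ).comp (fderiv ℝ U w)) w := fun w =>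
    (conjCLE : ℂ →L[ℝ] ℂ).hasFDerivAt.comp w (hd w).hasFDerivAt
  have hVa : ∀ w v, fderiv ℝ V w v = (starRingEnd ℂ) (fderiv ℝ U w v) := by
    intro w v
    rw [(hVf w).fderiv]
    rfl
  have hol : ∀ w, R < ‖w‖ → DifferentiableAt ℂ V w := by
    intro w hw
    refine differentiableAt_complex_iff_differentiableAt_real.2 ⟨(hVf w).differentiableAt, ?_⟩
    have h1 : dz U w = 0 := by rw [hdz, hχ w hw]
    unfold dz at h1
    have h2 : fderiv ℝ U w 1 = I * fderiv ℝ U w I := by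
      have h3 := div_eq_zero_iff.1 h1
      rcases h3 with h3 | h3
      · exact sub_eq_zero.1 h3
      · norm_num at h3
    rw [hVa, hVa, h2, map_mul, Complex.conj_I, smul_eq_mul, ← mul_assoc]
    have h4 : I * -I = 1 := by rw [mul_neg, Complex.I_mul_I, neg_neg]
    rw [h4, one_mul]
  have hr : 0 < ‖z‖ / 4 := by positivity
  have hball : ∀ w ∈ Metric.closedBall z (‖z‖ / 4), 3 * ‖z‖ / 4 ≤ ‖w‖ := by
    intro w hw
    rw [Metric.mem_closedBall, dist_eq_norm] at hw
    have h1 : ‖z‖ ≤ ‖w‖ + ‖w - z‖ := by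
      have := norm_sub_norm_le z w
      rw [norm_sub_rev] at this
      linarith
    linarith
  have hdc : DiffContOnCl ℂ V (Metric.ball z (‖z‖ / 4)) := by
    refine DifferentiableOn.diffContOnCl ?_
    rw [closure_ball z hr.ne']
    intro w hw
    exact (hol w (by have := hball w hw; linarith)).differentiableWithinAt
  have hCau := Complex.norm_deriv_le_of_forall_mem_sphere_norm_le (C := 4 * B / (3 * ‖z‖)) hr hdc
    (by
      intro w hw
      have h1 := hball w (Metric.sphere_subset_closedBall hw)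
      have h2 : ‖V w‖ = ‖U w‖ := by
        rw [hV]
        exact Complex.norm_conj _
      rw [h2]
      refine (hB w).trans ?_
      rw [div_le_div_iff₀ (by positivity) (by positivity)]
      have h3 : B * (3 * ‖z‖) ≤ B * (4 * (1 + ‖w‖)) :=
        mul_le_mul_of_nonneg_left (by linarith) hB0
      linarith)
  have hfin : ‖deriv V z‖ ≤ 6 * B / ‖z‖ ^ 2 := by
    refine hCau.trans ?_
    have e : 4 * B / (3 * ‖z‖) / (‖z‖ / 4) = 16 / 3 * B / ‖z‖ ^ 2 := by
      field_simp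
      ring
    rw [e]
    refine div_le_div_of_nonneg_right ?_ (by positivity)
    linarith
  have hVz : DifferentiableAt ℂ V z := hol z (by linarith)
  refine ContinuousLinearMap.opNorm_le_bound _ (by positivity) fun v => ?_
  have h1 : ‖fderiv ℝ U z v‖ = ‖fderiv ℝ V z v‖ := by rw [hVa, Complex.norm_conj]
  have h2 : fderiv ℝ V z v = v * deriv V z := by
    rw [hVz.fderiv_restrictScalars ℝ, ContinuousLinearMap.coe_restrictScalars',
      fderiv_eq_smul_deriv, smul_eq_mul]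
  rw [h1, h2, norm_mul, mul_comm]
  exact mul_le_mul_of_nonneg_right hfin (norm_nonneg _)

/-- finite energy -/
theorem energy {U : ℂ → ℂ} {B R : ℝ} (hU : ContDiff ℝ 1 U) (hB0 : 0 ≤ B) (hR : 1 ≤ R)
    (h : ∀ z, R ≤ ‖z‖ → ‖fderiv ℝ U z‖ ≤ B / ‖z‖ ^ 2) :
    ∫⁻ z, ‖fderiv ℝ U z‖ₑ ^ 2 < ⊤ := by
  have hfc : Continuous (fderiv ℝ U) := hU.continuous_fderiv one_ne_zero
  obtain ⟨M, hM⟩ := (isCompact_closedBall (0 : ℂ) R).exists_bound_of_continuousOn hfc.continuousOn
  have hM0 : 0 ≤ M := (norm_nonneg _).trans (hM 0 (by simp; linarith))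
  have hint : Integrable (fun z : ℂ => (M * (1 + R) ^ 2 + 4 * B) ^ 2 * (1 + ‖z‖) ^ (-(4 : ℝ))) :=
    (integrable_one_add_norm (by
      rw [Complex.finrank_real_complex]; norm_num)).const_mul _
  have hI : Integrable (fun z => ‖fderiv ℝ U z‖ ^ 2) := by
    refine hint.mono' (hfc.norm.pow 2).aestronglyMeasurable (Eventually.of_forall fun z => ?_)
    have hz1 : 0 < 1 + ‖z‖ := by positivity
    rw [Real.norm_eq_abs, abs_of_nonneg (by positivity)]
    have e : (1 + ‖z‖) ^ (-(4 : ℝ)) = (((1 + ‖z‖) ^ 2)⁻¹) ^ 2 := by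
      rw [Real.rpow_neg hz1.le]
      have : (1 + ‖z‖) ^ (4 : ℝ) = (1 + ‖z‖) ^ 4 := by
        rw [← Real.rpow_natCast]; norm_num
      rw [this, inv_pow, ← pow_mul]
    rw [e, ← mul_pow]
    refine pow_le_pow_left₀ (norm_nonneg _) ?_ 2
    rw [← div_eq_mul_inv, le_div_iff₀ (by positivity)]
    by_cases hz : ‖z‖ ≤ R
    · have h1 := hM z (by rw [mem_closedBall_zero_iff]; exact hz)
      have h2 : (1 + ‖z‖) ^ 2 ≤ (1 + R) ^ 2 := pow_le_pow_left₀ hz1.le (by linarith) 2
      have h3 := mul_le_mul h1 h2 (by positivity) hM0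
      linarith
    · rw [not_le] at hz
      have hz0 : 0 < ‖z‖ := by linarith
      have h1 := h z hz.le
      have h2 : (1 + ‖z‖) ^ 2 ≤ 4 * ‖z‖ ^ 2 := by
        have : (1 + ‖z‖) ^ 2 ≤ (2 * ‖z‖) ^ 2 := pow_le_pow_left₀ hz1.le (by linarith) 2
        linarith [mul_pow 2 ‖z‖ 2]
      have h3 := mul_le_mul h1 h2 (by positivity) (by positivity)
      have h4 : B / ‖z‖ ^ 2 * (4 * ‖z‖ ^ 2) = 4 * B := by
        field_simp
      have h5 : 0 ≤ M * (1 + R) ^ 2 := by positivity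
      linarith
  have h2 := hI.2
  refine lt_of_eq_of_lt ?_ h2
  refine lintegral_congr fun z => ?_
  rw [enorm_pow, enorm_norm]

theorem cp_core (hLI : T_LI) (hFUN : T_FUN) : T_CP := by
  intro χ hχ hc
  set ρ : ℂ → ℂ := fun z => ((2 / Real.pi : ℝ) : ℂ) * dzb χ z with hρ
  have hb1 := dzb_smooth hχ
  have hb2 := dzb_supp hc
  have hρ1 : ContDiff ℝ 1 ρ := contDiff_const.mul hb1
  have hρc : HasCompactSupport ρ := by
    have := hb2.mul_left (f := fun _ : ℂ => ((2 / Real.pi : ℝ) : ℂ))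
    exact this
  have hfc : Continuous (fderiv ℝ χ) := hχ.continuous_fderiv (by norm_num)
  have hfs : HasCompactSupport (fderiv ℝ χ) := hc.fderiv ℝ
  have hvs : ∀ v : ℂ, HasCompactSupport (fun a => fderiv ℝ χ a v) := by
    intro v
    refine hfs.comp_left (g := fun L : ℂ →L[ℝ] ℂ => L v) ?_
    rfl
  have hvi : ∀ v : ℂ, Integrable (fun a => fderiv ℝ χ a v) := fun v =>
    (hfc.clm_apply continuous_const).integrable_of_hasCompactSupport (hvs v)
  have hv0 : ∀ v : ℂ, ∫ a, fderiv ℝ χ a v = 0 := by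
    intro v
    have h := integral_mul_fderiv_eq_neg_fderiv_mul_of_integrable (μ := (volume : Measure ℂ))
      (f := fun _ : ℂ => (1 : ℂ)) (g := χ) (v := v) (by simp) (by simpa using hvi v)
      (by simpa using hχ.continuous.integrable_of_hasCompactSupport hc)
      (fun x _ => differentiableAt_const _) (fun x _ => hχ.differentiable (by norm_num) x)
    simpa using h
  have hρ0 : ∫ w, ρ w = 0 := by
    simp only [hρ]
    rw [integral_const_mul]
    unfold dzb
    rw [integral_div, integral_add (hvi 1) ((hvi I).const_mul I), integral_const_mul, hv0, hv0]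
    simp
  have hpi : (Real.pi : ℂ) ≠ 0 := by exact_mod_cast Real.pi_ne_zero
  have hdzρ : ∀ w, dz ρ w = (2 * Real.pi : ℂ)⁻¹ * (Δ χ) w := by
    intro w
    have h1 : ∀ v, fderiv ℝ ρ w v = ((2 / Real.pi : ℝ) : ℂ) * fderiv ℝ (dzb χ) w v := by
      intro v
      have hdd : DifferentiableAt ℝ (dzb χ) w := hb1.differentiable one_ne_zero w
      simp only [hρ]
      rw [fderiv_const_mul hdd]
      rfl
    have h2 : dz ρ w = ((2 / Real.pi : ℝ) : ℂ) * dz (dzb χ) w := by
      unfold dz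
      rw [h1, h1]
      ring
    rw [h2, dz_dzb hχ]
    push_cast
    field_simp
    ring
  have hU1 := pot_smooth hLI hρ1 hρc
  have hdz : ∀ z, dz (pot ρ) z = χ z := by
    intro z
    rw [dz_pot hLI hρ1 hρc]
    have h1 : ∫ t, lg t * dz ρ (z - t) = ∫ w, lg (z - w) * dz ρ w := by
      rw [← integral_sub_left_eq_self (fun t => lg t * dz ρ (z - t)) volume z]
      simp
    rw [h1]
    simp_rw [hdzρ]
    have h2 : ∀ w, lg (z - w) * ((2 * Real.pi : ℂ)⁻¹ * (Δ χ) w) =
        (2 * Real.pi : ℂ)⁻¹ * (lg (z - w) * (Δ χ) w) := fun w => by ring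
    simp_rw [h2]
    rw [integral_const_mul, fun_sol hFUN hχ hc]
    field_simp
  obtain ⟨B, hB⟩ := pot_decay hLI hρ1.continuous hρc hρ0 hU1.continuous
  have hB0 : 0 ≤ B := by
    have h := (norm_nonneg _).trans (hB 0)
    simpa using h
  obtain ⟨R₀, hR₀⟩ := hc.isCompact.isBounded.subset_closedBall (0 : ℂ)
  have hχ0 : ∀ z, max R₀ 1 < ‖z‖ → χ z = 0 := by
    intro z hz
    by_contra h
    have h1 := hR₀ (subset_tsupport χ h)
    rw [mem_closedBall_zero_iff] at h1
    exact absurd (h1.trans (le_max_left _ _)) (not_le.2 hz)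
  refine ⟨ρ, ⟨hρ1.continuous, hρc, hρ0⟩, hU1, hdz, ⟨B, hB⟩, ?_⟩
  have hR1 : 1 ≤ max R₀ 1 := le_max_right _ _
  exact energy (R := 2 * max R₀ 1) (B := 6 * B) hU1 (by linarith) (by linarith)
    fun z hz => grad_decay hU1 hdz hχ0 hR1 hB z hz

end Pool.Agent.H59.UDA
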